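import Pool.Agent.Work.MP_87c52b_gt.MkCtx
import Pool.Agent.Work.MP_87c52b_gt.LG

/-!
Every pseudocompact minimal Hausdorff group all of whose closed zero-dimensional subgroups are
discrete is a Lie group.
-/

universe u

namespace Pool.Agent.Results.MP_87c52b_gt.PseudocompactMinimalZ

open Pool.Agent.Work.MP_87c52b_gt

/-- Every pseudocompact minimal Hausdorff topological group satisfying property Z is a Lie
group. -/
theorem result (G : Type u) [Group G] [TopologicalSpace G] [IsTopologicalGroup G] [T2Space G]
    (h1 : Pseudocompact G) (h2 : MinimalGroup G) (h3 : PropertyZ G) : IsLie G := by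
  obtain ⟨hc, hb⟩ := compact_linear G h1 h2 h3
  exact isLie_of_linear G hb

end Pool.Agent.Results.MP_87c52b_gt.PseudocompactMinimalZ
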